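import Pool.Agent.H83.UNE.Q8
import Mathlib.GroupTheory.SpecificGroups.Quaternion

set_option autoImplicit false

/-!
PROJECT UNE (MP_bf82d2_ag): the quaternion group.
-/

namespace Pool.Agent.H83.UNE

open Pool.Agent.H52.WP (ShimE)

variable {G : Type} [Group G]

/-- a group of order eight generated by `x`, `y` with `x² = y² = x y x⁻¹ y⁻¹` is the quaternion group -/
theorem iso_q8 [Finite G] (x y : G) (hg : Subgroup.closure {x, y} = ⊤) (h8 : Nat.card G = 8)
    (h1 : x ^ 2 = y ^ 2) (h2 : x ^ 2 = x * y * x⁻¹ * y⁻¹) : Nonempty (G ≃* QuaternionGroup 2) := by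
  have h3 : x = y * x⁻¹ * y⁻¹ := by
    have h4 : x * x = x * (y * x⁻¹ * y⁻¹) := by
      rw [← sq, h2]
      group
    exact mul_left_cancel h4
  have h4 : y⁻¹ * x * y = x⁻¹ := by
    conv_lhs => rw [h3]
    group
  have hy2 : x ^ 2 = (x ^ 2)⁻¹ := by
    have h5 : y⁻¹ * x ^ 2 * y = x ^ 2 := by
      rw [h1]
      group
    have h6 : y⁻¹ * x ^ 2 * y = (x ^ 2)⁻¹ := by
      have h7 : y⁻¹ * x ^ 2 * y = (y⁻¹ * x * y) ^ 2 := by
        rw [sq, sq]
        group
      rw [h7, h4, inv_pow]
    exact h5.symm.trans h6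
  have hx4 : x ^ 4 = 1 := by
    have h5 : x ^ 4 = x ^ 2 * x ^ 2 := by rw [← pow_add]
    rw [h5]
    nth_rewrite 1 [hy2]
    exact inv_mul_cancel _
  let f : ZMod (2 * 2) →+ Additive G := ZMod.lift (2 * 2) ⟨zmultiplesHom (Additive G) (Additive.ofMul x), by
    rw [zmultiplesHom_apply]
    show Additive.ofMul (x ^ ((2 * 2 : ℕ) : ℤ)) = 0
    rw [zpow_natCast]
    show Additive.ofMul (x ^ 4) = 0
    rw [hx4]
    rfl⟩
  obtain ⟨P, hP⟩ : ∃ P : ZMod (2 * 2) → G, ∀ i, P i = Additive.toMul (f i) := ⟨_, fun _ => rfl⟩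
  have hadd : ∀ i j, P (i + j) = P i * P j := by
    intro i j
    rw [hP, hP, hP, map_add, toMul_add]
  have hneg : ∀ i, P (-i) = (P i)⁻¹ := by
    intro i
    rw [hP, hP, map_neg, toMul_neg]
  have hint : ∀ k : ℤ, P k = x ^ k := by
    intro k
    rw [hP]
    show Additive.toMul (ZMod.lift (2 * 2) _ ((k : ℤ) : ZMod (2 * 2))) = _
    rw [ZMod.lift_coe]
    rfl
  have hPy : ∀ i, P i * y = y * (P i)⁻¹ := by
    intro i
    obtain ⟨k, rfl⟩ := ZMod.intCast_surjective i
    rw [hint]
    have h5 : y⁻¹ * x ^ k * y = (x ^ k)⁻¹ := by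
      have h6 : y⁻¹ * x ^ k * y = (y⁻¹ * x * y) ^ k := by
        have h7 := conj_zpow (a := y⁻¹) (b := x) (i := k)
        rw [inv_inv] at h7
        exact h7.symm
      rw [h6, h4, inv_zpow]
    rw [← h5]
    group
  have h2P : P ((2 : ℕ) : ZMod (2 * 2)) = y ^ 2 := by
    have h5 := hint 2
    rw [← h1]
    exact_mod_cast h5
  let F : QuaternionGroup 2 →* G :=
    { toFun := fun q => match q with
        | QuaternionGroup.a i => P i
        | QuaternionGroup.xa i => y * P i
      map_one' := by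
        show P 0 = 1
        rw [hP, map_zero]
        rfl
      map_mul' := by
        rintro (i | i) (j | j)
        · show P (i + j) = P i * P j
          exact hadd i j
        · show y * P (j - i) = P i * (y * P j)
          rw [sub_eq_neg_add, hadd, hneg, ← mul_assoc, ← mul_assoc, hPy]
        · show y * P (i + j) = y * P i * P j
          rw [hadd, mul_assoc]
        · show P (((2 : ℕ) : ZMod (2 * 2)) + j - i) = y * P i * (y * P j)
          have h5 : (((2 : ℕ) : ZMod (2 * 2)) + j - i) = ((2 : ℕ) : ZMod (2 * 2)) + (-i + j) := by ring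
          rw [h5, hadd, hadd, hneg, h2P, sq]
          calc y * y * ((P i)⁻¹ * P j) = y * (y * (P i)⁻¹) * P j := by group
            _ = y * (P i * y) * P j := by rw [hPy]
            _ = y * P i * (y * P j) := by group }
  have hFx : F (QuaternionGroup.a 1) = x := by
    show P 1 = x
    have h5 := hint 1
    rw [Int.cast_one, zpow_one] at h5
    exact h5
  have hFy : F (QuaternionGroup.xa 0) = y := by
    show y * P 0 = y
    rw [hP, map_zero]
    exact mul_one y
  have hsur : Function.Surjective F := by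
    rw [← MonoidHom.range_eq_top, eq_top_iff, ← hg, Subgroup.closure_le]
    rintro z (rfl | rfl)
    · exact ⟨_, hFx⟩
    · exact ⟨_, hFy⟩
  have hcard : Nat.card (QuaternionGroup 2) = 8 := by
    rw [Nat.card_eq_fintype_card, QuaternionGroup.card]
  have hbij : Function.Bijective F := by
    refine (Nat.bijective_iff_surjective_and_card F).2 ⟨hsur, ?_⟩
    rw [hcard, h8]
  exact ⟨(MulEquiv.ofBijective F hbij).symm⟩

/-- One branch point on an elliptic curve: a family with infinitely many curves with complex multiplication has the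
quaternion group. -/
theorem shimE_iso [Fintype G] {x y : G} (h : ShimE x y) : Nonempty (G ≃* QuaternionGroup 2) := by
  obtain ⟨h1, h2, h3⟩ := shimE_q8 h
  exact iso_q8 x y h.gen h1 h2 h3

end Pool.Agent.H83.UNE
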