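import Pool.Agent.H52.WP.ShE

set_option autoImplicit false

/-!
PROJECT UNE (MP_bf82d2_ag): families of Galois covers of elliptic curves with one branch point, the group theory.
If all the functions in `HE x y` and `HE y x⁻¹` are constant and the inequality of Noether and Arakelov holds, then
`G` is the quaternion group.
-/

namespace Pool.Agent.H83.UNE

open Finset Module
open Pool.Agent.H52.WP (HE wallE HE_inv ShimE)

variable {G : Type} [Group G] [Fintype G]

/-- the space `HE x y` has dimension at least `n / |x| - n / |H| + 1`; if it is the space of the constants,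
`y x y⁻¹` is a power of `x` -/
theorem normal_of_const (x y : G) (h1 : ∀ f ∈ HE x y, ∀ g, f g = f 1) :
    y * x * y⁻¹ ∈ Subgroup.zpowers x := by
  classical
  obtain ⟨X, hX⟩ : ∃ X, X = Subgroup.zpowers x := ⟨_, rfl⟩
  obtain ⟨H, hH⟩ : ∃ H, H = Subgroup.closure {x, y * x * y⁻¹} := ⟨_, rfl⟩
  have hxX : x ∈ X := by rw [hX]; exact Subgroup.mem_zpowers x
  have hxH : x ∈ H := by rw [hH]; exact Subgroup.subset_closure (by simp)
  have hyH : y * x * y⁻¹ ∈ H := by rw [hH]; exact Subgroup.subset_closure (by simp)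
  have hXH : X ≤ H := by rw [hX]; exact (Subgroup.zpowers_le).2 hxH
  let Psi : (G ⧸ X → ℂ) →ₗ[ℂ] (G → ℂ) :=
    { toFun := fun F g => ∑ h : H, F (((g * h : G) : G ⧸ X)) - ∑ h : H, F (((g * h * y : G) : G ⧸ X))
      map_add' := by
        intro F K
        funext g
        simp only [Pi.add_apply, sum_add_distrib]
        ring
      map_smul' := by
        intro c F
        funext g
        simp only [Pi.smul_apply, smul_eq_mul, ← mul_sum, RingHom.id_apply]
        ring }
  have hPsi : ∀ F g, Psi F g =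
      ∑ h : H, F (((g * h : G) : G ⧸ X)) - ∑ h : H, F (((g * h * y : G) : G ⧸ X)) := fun _ _ => rfl
  have hinv : ∀ F g (k : H), Psi F (g * k) = Psi F g := by
    intro F g k
    rw [hPsi, hPsi]
    congr 1
    · refine Fintype.sum_equiv (Equiv.mulLeft k) _ _ fun h => ?_
      rw [Equiv.coe_mulLeft, Subgroup.coe_mul, mul_assoc]
    · refine Fintype.sum_equiv (Equiv.mulLeft k) _ _ fun h => ?_
      rw [Equiv.coe_mulLeft, Subgroup.coe_mul]
      simp only [mul_assoc]
  have hsum : ∀ F, ∑ g, Psi F g = 0 := by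
    intro F
    simp only [hPsi, sum_sub_distrib]
    rw [sum_comm, sum_comm (s := univ) (t := univ) (f := fun g (h : H) => F (((g * h * y : G) : G ⧸ X))),
      ← sum_sub_distrib]
    refine sum_eq_zero fun h _ => ?_
    rw [sub_eq_zero]
    rw [Fintype.sum_equiv (Equiv.mulRight (h : G)) (fun g => F (((g * h : G) : G ⧸ X)))
      (fun g => F ((g : G) : G ⧸ X)) fun g => rfl,
      Fintype.sum_equiv (Equiv.mulRight ((h : G) * y)) (fun g => F (((g * h * y : G) : G ⧸ X)))
      (fun g => F ((g : G) : G ⧸ X)) fun g => by rw [Equiv.coe_mulRight, mul_assoc]]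
  let L : (G ⧸ X → ℂ) →ₗ[ℂ] (G ⧸ H → ℂ) := (LinearMap.funLeft ℂ ℂ (fun q : G ⧸ H => q.out)) ∘ₗ Psi
  have hL : ∀ F q, L F q = Psi F q.out := fun _ _ => rfl
  let S : (G ⧸ H → ℂ) →ₗ[ℂ] ℂ := ∑ q, LinearMap.proj q
  have hS : ∀ K, S K = ∑ q, K q := by
    intro K
    show (∑ q, LinearMap.proj q : (G ⧸ H → ℂ) →ₗ[ℂ] ℂ) K = _
    rw [LinearMap.sum_apply]
    rfl
  have hSL : LinearMap.range L ≤ LinearMap.ker S := by
    rintro _ ⟨F, rfl⟩
    rw [LinearMap.mem_ker, hS]
    have h3 : ∑ g, Psi F g = (Fintype.card H : ℂ) * ∑ q : G ⧸ H, L F q := by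
      let e : (G ⧸ H) × H → G := fun q => q.1.out * q.2
      have he : Function.Bijective e := by
        constructor
        · rintro ⟨q, h⟩ ⟨q', h'⟩ hqq
          have h4 : q.out * (h : G) = q'.out * (h' : G) := hqq
          have h5 : q = q' := by
            have h6 := congrArg (fun g : G => ((g : G) : G ⧸ H)) h4
            change ((q.out * (h : G) : G) : G ⧸ H) = ((q'.out * (h' : G) : G) : G ⧸ H) at h6
            rw [QuotientGroup.mk_mul_of_mem _ h.2, QuotientGroup.mk_mul_of_mem _ h'.2,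
              QuotientGroup.out_eq', QuotientGroup.out_eq'] at h6
            exact h6
          subst h5
          rw [mul_right_inj] at h4
          rw [Subtype.ext h4]
        · intro g
          obtain ⟨h, hh⟩ := QuotientGroup.mk_out_eq_mul H g
          refine ⟨(((g : G) : G ⧸ H), h⁻¹), ?_⟩
          show ((g : G) : G ⧸ H).out * ((h⁻¹ : H) : G) = g
          rw [hh, Subgroup.coe_inv, mul_inv_cancel_right]
      rw [← Fintype.sum_bijective e he (fun q => Psi F (e q)) (fun g => Psi F g) fun q => rfl,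
        Fintype.sum_prod_type, mul_sum]
      refine sum_congr rfl fun q _ => ?_
      rw [hL]
      have h4 : ∀ h : H, Psi F (e (q, h)) = Psi F q.out := fun h => hinv F q.out h
      rw [sum_congr rfl fun h _ => h4 h, sum_const, card_univ, nsmul_eq_mul]
    rw [hsum] at h3
    have h5 : (Fintype.card H : ℂ) ≠ 0 := by
      exact_mod_cast Fintype.card_ne_zero
    exact (mul_eq_zero.1 h3.symm).resolve_left h5
  have hkS : finrank ℂ (LinearMap.ker S) + 1 = Nat.card (G ⧸ H) := by
    have h3 := LinearMap.finrank_range_add_finrank_ker S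
    have h4 : LinearMap.range S = ⊤ := by
      rw [LinearMap.range_eq_top]
      intro c
      refine ⟨Pi.single ((1 : G) : G ⧸ H) c, ?_⟩
      rw [hS, Finset.sum_pi_single']
      simp
    rw [h4, finrank_top, finrank_self, finrank_fintype_fun_eq_card] at h3
    rw [Nat.card_eq_fintype_card]
    omega
  have hout : ∀ F, L F = 0 → ∀ g, Psi F g = 0 := by
    intro F hF g
    obtain ⟨h, hh⟩ := QuotientGroup.mk_out_eq_mul H g
    have h3 := congrFun hF ((g : G) : G ⧸ H)
    rw [hL, hh, hinv] at h3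
    exact h3
  have hkL : finrank ℂ (LinearMap.ker L) ≤ 1 := by
    have hone : (fun _ => 1 : G ⧸ X → ℂ) ∈ LinearMap.ker L := by
      rw [LinearMap.mem_ker]
      funext q
      rw [hL, hPsi, sub_self]
      rfl
    refine finrank_le_one ⟨_, hone⟩ fun F => ⟨(F : G ⧸ X → ℂ) ((1 : G) : G ⧸ X), ?_⟩
    apply Subtype.ext
    funext q
    obtain ⟨g, rfl⟩ := QuotientGroup.mk_surjective q
    show (F : G ⧸ X → ℂ) ((1 : G) : G ⧸ X) * 1 = (F : G ⧸ X → ℂ) ((g : G) : G ⧸ X)
    rw [mul_one]
    have h3 : (fun g : G => (F : G ⧸ X → ℂ) ((g : G) : G ⧸ X)) ∈ HE x y := by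
      refine ⟨fun g => ?_, fun g => ?_⟩
      · show (F : G ⧸ X → ℂ) ((g * x : G) : G ⧸ X) = (F : G ⧸ X → ℂ) ((g : G) : G ⧸ X)
        rw [QuotientGroup.mk_mul_of_mem g hxX]
      · have h4 := hout F F.2 g
        rw [hPsi, sub_eq_zero] at h4
        subst hH
        exact h4
    exact (h1 _ h3 g).symm
  have h5 := LinearMap.finrank_range_add_finrank_ker L
  rw [finrank_fintype_fun_eq_card, ← Nat.card_eq_fintype_card] at h5
  have h6 := Submodule.finrank_mono hSL
  have h7 : Nat.card (G ⧸ X) ≤ Nat.card (G ⧸ H) := by omega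
  have h8 : Nat.card H ≤ Nat.card X := by
    have h9 := Subgroup.card_eq_card_quotient_mul_card_subgroup X
    have h10 := Subgroup.card_eq_card_quotient_mul_card_subgroup H
    have h11 : 0 < Nat.card (G ⧸ X) := Nat.card_pos
    have h12 : Nat.card (G ⧸ X) * Nat.card H ≤ Nat.card (G ⧸ X) * Nat.card X := by
      rw [← h9, h10]
      exact Nat.mul_le_mul_right _ h7
    exact Nat.le_of_mul_le_mul_left h12 h11
  have h9 : X = H := Subgroup.eq_of_le_of_card_ge hXH h8
  rw [← hX, h9]
  exact hyH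

omit [Fintype G] in
/-- if the commutators of `x` and of `y` with `t` are central, so are all the commutators with `t` -/
theorem comm_central (x y t : G) (hg : Subgroup.closure {x, y} = ⊤)
    (hx : ∃ z ∈ Subgroup.center G, x * t = z * t * x) (hy : ∃ z ∈ Subgroup.center G, y * t = z * t * y) (g : G) :
    ∃ z ∈ Subgroup.center G, g * t = z * t * g := by
  let K : Subgroup G :=
    { carrier := {g | ∃ z ∈ Subgroup.center G, g * t = z * t * g}
      mul_mem' := by
        rintro g h ⟨z, hz, h1⟩ ⟨w, hw, h2⟩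
        refine ⟨z * w, mul_mem hz hw, ?_⟩
        have h3 := (Subgroup.mem_center_iff.1 hw) g
        calc g * h * t = g * (w * t * h) := by rw [mul_assoc, h2]
          _ = (g * w) * t * h := by group
          _ = w * (g * t) * h := by rw [h3]; group
          _ = w * z * t * (g * h) := by rw [h1]; group
          _ = z * w * t * (g * h) := by rw [(Subgroup.mem_center_iff.1 hz) w]
      one_mem' := ⟨1, one_mem _, by group⟩
      inv_mem' := by
        rintro g ⟨z, hz, h1⟩
        refine ⟨z⁻¹, inv_mem hz, ?_⟩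
        have h3 := (Subgroup.mem_center_iff.1 hz) g⁻¹
        have h4 : t * g⁻¹ = z * g⁻¹ * t := by
          calc t * g⁻¹ = g⁻¹ * (g * t) * g⁻¹ := by group
            _ = g⁻¹ * z * t := by rw [h1]; group
            _ = z * g⁻¹ * t := by rw [h3]
        calc g⁻¹ * t = z⁻¹ * (z * g⁻¹ * t) := by group
          _ = z⁻¹ * t * g⁻¹ := by rw [← h4]; group }
  have hK : K = ⊤ := by
    rw [eq_top_iff, ← hg, Subgroup.closure_le]
    rintro z (rfl | rfl)
    · exact hx
    · exact hy
  have h1 : g ∈ K := by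
    rw [hK]
    exact Subgroup.mem_top g
  exact h1

/-- the homomorphism `g ↦ g t g⁻¹ t⁻¹` -/
def cm (t : G) (h : ∀ g : G, ∃ z ∈ Subgroup.center G, g * t = z * t * g) : G →* G where
  toFun g := g * t * g⁻¹ * t⁻¹
  map_one' := by group
  map_mul' g k := by
    obtain ⟨z, hz, h1⟩ := h g
    obtain ⟨w, hw, h2⟩ := h k
    have h3 : g * t * g⁻¹ * t⁻¹ = z := by rw [h1]; group
    have h4 : k * t * k⁻¹ * t⁻¹ = w := by rw [h2]; group
    have h5 : g * w * g⁻¹ = w := by rw [(Subgroup.mem_center_iff.1 hw) g]; group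
    calc g * k * t * (g * k)⁻¹ * t⁻¹ = g * (k * t * k⁻¹ * t⁻¹) * g⁻¹ * (g * t * g⁻¹ * t⁻¹) := by group
      _ = w * z := by rw [h4, h5, h3]
      _ = z * w := by rw [(Subgroup.mem_center_iff.1 hz) w]
      _ = g * t * g⁻¹ * t⁻¹ * (k * t * k⁻¹ * t⁻¹) := by rw [h3, h4]

theorem q8 (x y : G) (hg : Subgroup.closure {x, y} = ⊤) (hc : x * y ≠ y * x)
    (h1 : ∀ f ∈ HE x y, ∀ g, f g = f 1) (h2 : ∀ f ∈ HE y x⁻¹, ∀ g, f g = f 1)
    (hN : (Nat.card G : ℝ) * (1 - 1 / (orderOf (x * y * x⁻¹ * y⁻¹) : ℝ) ^ 2) < 12) :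
    Nat.card G = 8 ∧ x ^ 2 = y ^ 2 ∧ x ^ 2 = x * y * x⁻¹ * y⁻¹ := by
  have hx := normal_of_const x y h1
  have hy := normal_of_const y x⁻¹ h2
  rw [inv_inv] at hy
  obtain ⟨c, hcd⟩ : ∃ c, c = x * y * x⁻¹ * y⁻¹ := ⟨_, rfl⟩
  have hcx : c ∈ Subgroup.zpowers x := by
    have h3 : c = x * (y * x * y⁻¹)⁻¹ := by rw [hcd]; group
    rw [h3]
    exact mul_mem (Subgroup.mem_zpowers x) (inv_mem hx)
  -- d = x⁻¹ y x y⁻¹ is central
  obtain ⟨d, hd⟩ : ∃ d, d = x⁻¹ * y * x * y⁻¹ := ⟨_, rfl⟩
  have hdx : d ∈ Subgroup.zpowers x := by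
    have h3 : d = x⁻¹ * (y * x * y⁻¹) := by rw [hd]; group
    rw [h3]
    exact mul_mem (inv_mem (Subgroup.mem_zpowers x)) hx
  have hdy : d ∈ Subgroup.zpowers y := by
    have h3 : d = (x⁻¹ * y * x) * y⁻¹ := by rw [hd]
    rw [h3]
    exact mul_mem hy (inv_mem (Subgroup.mem_zpowers y))
  have hcen : ∀ e ∈ Subgroup.zpowers x, e ∈ Subgroup.zpowers y → e ∈ Subgroup.center G := by
    intro e he he'
    have h3 : Subgroup.closure {x, y} ≤ Subgroup.centralizer {e} := by
      rw [Subgroup.closure_le]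
      rintro z (rfl | rfl)
      · rw [SetLike.mem_coe, Subgroup.mem_centralizer_singleton_iff]
        obtain ⟨k, hk⟩ := Subgroup.mem_zpowers_iff.1 he
        rw [← hk]
        exact (Commute.self_zpow z k).eq
      · rw [SetLike.mem_coe, Subgroup.mem_centralizer_singleton_iff]
        obtain ⟨k, hk⟩ := Subgroup.mem_zpowers_iff.1 he'
        rw [← hk]
        exact (Commute.self_zpow z k).eq
    rw [hg] at h3
    rw [Subgroup.mem_center_iff]
    intro g
    have h4 := h3 (Subgroup.mem_top g)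
    rw [Subgroup.mem_centralizer_singleton_iff] at h4
    exact h4
  have hdc := hcen d hdx hdy
  have hcd2 : c = d⁻¹ := by
    have h3 := (Subgroup.mem_center_iff.1 hdc) x
    have h4 : x * d * x⁻¹ = d := by rw [h3]; group
    have h5 : x * d * x⁻¹ = c⁻¹ := by rw [hd, hcd]; group
    rw [← h4, h5, inv_inv]
  have hcy : c ∈ Subgroup.zpowers y := by
    rw [hcd2]
    exact inv_mem hdy
  have hcc := hcen c hcx hcy
  have hc1 : c ≠ 1 := by
    intro h3
    apply hc
    rw [hcd, mul_inv_eq_one, mul_inv_eq_iff_eq_mul] at h3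
    exact h3
  have hxy : x * y = c * y * x := by rw [hcd]; group
  have hyx : y * x = c⁻¹ * x * y := by rw [hcd]; group
  have hY := comm_central x y y hg ⟨c, hcc, hxy⟩ ⟨1, one_mem _, by group⟩
  have hX := comm_central x y x hg ⟨1, one_mem _, by group⟩ ⟨c⁻¹, inv_mem hcc, hyx⟩
  let φ : G →* G × G := (cm y hY).prod (cm x hX)
  have hker : φ.ker = Subgroup.center G := by
    ext g
    rw [MonoidHom.mem_ker, Subgroup.mem_center_iff]
    have h3 : φ g = (g * y * g⁻¹ * y⁻¹, g * x * g⁻¹ * x⁻¹) := rfl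
    rw [h3, Prod.mk_eq_one, mul_inv_eq_one, mul_inv_eq_iff_eq_mul, mul_inv_eq_one, mul_inv_eq_iff_eq_mul]
    constructor
    · rintro ⟨h4, h5⟩ k
      have h6 : Subgroup.closure {x, y} ≤ Subgroup.centralizer {g} := by
        rw [Subgroup.closure_le]
        rintro z (rfl | rfl)
        · rw [SetLike.mem_coe, Subgroup.mem_centralizer_singleton_iff]
          exact h5.symm
        · rw [SetLike.mem_coe, Subgroup.mem_centralizer_singleton_iff]
          exact h4.symm
      rw [hg] at h6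
      have h7 := h6 (Subgroup.mem_top k)
      rw [Subgroup.mem_centralizer_singleton_iff] at h7
      exact h7
    · intro h4
      exact ⟨(h4 y).symm, (h4 x).symm⟩
  have hφx : φ x = (c, 1) := by
    show (x * y * x⁻¹ * y⁻¹, x * x * x⁻¹ * x⁻¹) = (c, 1)
    rw [hcd]
    congr 1
    group
  have hφy : φ y = (1, c⁻¹) := by
    show (y * y * y⁻¹ * y⁻¹, y * x * y⁻¹ * x⁻¹) = (1, c⁻¹)
    rw [hcd]
    congr 1
    · group
    · group
  have hran : (Subgroup.zpowers c).prod (Subgroup.zpowers c) ≤ φ.range := by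
    rintro ⟨u, v⟩ ⟨hu, hv⟩
    obtain ⟨i, hi⟩ := Subgroup.mem_zpowers_iff.1 hu
    obtain ⟨j, hj⟩ := Subgroup.mem_zpowers_iff.1 hv
    refine ⟨x ^ i * y ^ (-j), ?_⟩
    rw [map_mul, map_zpow, map_zpow, hφx, hφy]
    show (c ^ i * 1 ^ (-j), 1 ^ i * (c⁻¹) ^ (-j)) = (u, v)
    rw [one_zpow, one_zpow, mul_one, one_mul, inv_zpow', neg_neg]
    exact Prod.ext hi hj
  obtain ⟨m, hm⟩ : ∃ m, m = orderOf c := ⟨_, rfl⟩
  have hm2 : 2 ≤ m := by
    have h3 : orderOf c ≠ 1 := by
      rw [Ne, orderOf_eq_one_iff]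
      exact hc1
    have h4 := orderOf_pos c
    omega
  have hZ : m ∣ Nat.card (Subgroup.center G) := by
    rw [hm, ← Nat.card_zpowers]
    exact Subgroup.card_dvd_of_le ((Subgroup.zpowers_le).2 hcc)
  have hR : m * m ∣ Nat.card φ.range := by
    have h3 := Subgroup.card_dvd_of_le hran
    rw [Nat.card_congr (Subgroup.prodEquiv _ _).toEquiv, Nat.card_prod, Nat.card_zpowers, ← hm] at h3
    exact h3
  have hcard : Nat.card G = Nat.card (Subgroup.center G) * Nat.card φ.range := by
    rw [← hker, ← Nat.card_congr (QuotientGroup.quotientKerEquivRange φ).toEquiv]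
    rw [mul_comm]
    exact Subgroup.card_eq_card_quotient_mul_card_subgroup φ.ker
  have hdvd : m * (m * m) ∣ Nat.card G := by
    rw [hcard]
    exact mul_dvd_mul hZ hR
  have hpos : 0 < Nat.card G := Nat.card_pos
  rw [← hcd, ← hm] at hN
  have hmR : (2 : ℝ) ≤ m := by exact_mod_cast hm2
  have hnR : (m : ℝ) * (m * m) ≤ Nat.card G := by
    exact_mod_cast Nat.le_of_dvd hpos hdvd
  have hm3 : m = 2 := by
    by_contra h3
    have h4 : (3 : ℝ) ≤ m := by
      have h5 : 3 ≤ m := by omega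
      exact_mod_cast h5
    have h5 : 1 / (m : ℝ) ^ 2 ≤ 1 / 9 := by
      apply one_div_le_one_div_of_le (by norm_num)
      nlinarith
    have h6 : (27 : ℝ) ≤ (m : ℝ) * (m * m) := by nlinarith
    nlinarith
  subst hm3
  have h8 : Nat.card G = 8 := by
    have h3 : (Nat.card G : ℝ) < 16 := by
      push_cast at hN
      linarith
    have h4 : Nat.card G < 16 := by exact_mod_cast h3
    omega
  have hcR : Nat.card φ.range ≠ 0 := Nat.card_pos.ne'
  have hZ2 : Nat.card (Subgroup.center G) ≤ 2 := by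
    have h3 := Nat.le_of_dvd (Nat.pos_of_ne_zero hcR) hR
    rw [h8] at hcard
    nlinarith
  have hcc2 : c ^ 2 = 1 := by
    rw [hm]
    exact pow_orderOf_eq_one c
  have hcen2 : ∀ e ∈ Subgroup.center G, e = 1 ∨ e = c := by
    intro e he
    have h3 : Subgroup.zpowers c = Subgroup.center G := by
      refine Subgroup.eq_of_le_of_card_ge ((Subgroup.zpowers_le).2 hcc) ?_
      rw [Nat.card_zpowers, ← hm]
      exact hZ2
    rw [← h3] at he
    obtain ⟨k, hk⟩ := Subgroup.mem_zpowers_iff.1 he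
    have h5 : c ^ (2 : ℤ) = 1 := by exact_mod_cast hcc2
    rcases Int.even_or_odd' k with ⟨l, rfl | rfl⟩
    · left
      rw [← hk, zpow_mul, h5, one_zpow]
    · right
      rw [← hk, zpow_add, zpow_mul, h5, one_zpow, one_mul, zpow_one]
  have hx2 : x ^ 2 ∈ Subgroup.center G := by
    rw [← hker, MonoidHom.mem_ker, map_pow, hφx]
    show (c ^ 2, (1 : G) ^ 2) = 1
    rw [hcc2, one_pow]
    rfl
  have hy2 : y ^ 2 ∈ Subgroup.center G := by
    rw [← hker, MonoidHom.mem_ker, map_pow, hφy]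
    show ((1 : G) ^ 2, (c⁻¹) ^ 2) = 1
    rw [inv_pow, hcc2, one_pow, inv_one]
    rfl
  have hpow : ∀ t : G, t ^ 2 ∈ Subgroup.center G → c ∈ Subgroup.zpowers t → t ∉ Subgroup.center G →
      t ^ 2 = c := by
    intro t ht hct htc
    rcases hcen2 _ ht with h3 | h3
    · exfalso
      obtain ⟨k, hk⟩ := Subgroup.mem_zpowers_iff.1 hct
      rcases Int.even_or_odd' k with ⟨l, rfl | rfl⟩
      · apply hc1
        rw [← hk, zpow_mul]
        have h4 : t ^ (2 : ℤ) = 1 := by exact_mod_cast h3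
        rw [h4, one_zpow]
      · apply htc
        rw [zpow_add, zpow_mul] at hk
        have h4 : t ^ (2 : ℤ) = 1 := by exact_mod_cast h3
        rw [h4, one_zpow, one_mul, zpow_one] at hk
        rw [hk]
        exact hcc
    · exact h3
  have hxn : x ∉ Subgroup.center G := by
    intro h3
    exact hc ((Subgroup.mem_center_iff.1 h3) y).symm
  have hyn : y ∉ Subgroup.center G := by
    intro h3
    exact hc ((Subgroup.mem_center_iff.1 h3) x)
  have h9 := hpow x hx2 hcx hxn
  have h10 := hpow y hy2 hcy hyn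
  refine ⟨h8, ?_, ?_⟩
  · rw [h9, h10]
  · rw [h9, hcd]

/-- One branch point on an elliptic curve: a family with infinitely many curves with complex multiplication has the
quaternion group. -/
theorem shimE_q8 {x y : G} (h : ShimE x y) :
    Nat.card G = 8 ∧ x ^ 2 = y ^ 2 ∧ x ^ 2 = x * y * x⁻¹ * y⁻¹ :=
  q8 x y h.gen h.brn h.const_x h.const_y h.noether

end Pool.Agent.H83.UNE
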